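import Mathlib
import Pool.Agent.H648R2.S.Merge

/-!
# Long blocks in expansions of an algebraic irrational number do not repeat early
-/

set_option autoImplicit false

namespace Pool.Agent.V7H79.RD

open Finset

/-- `w` is an expansion in base `b` of a number `(l ξ + r) / m`, with integers `l ≠ 0`, `m ≠ 0`
and `w 1, w 2, …` of absolute value at most `H` -/
def Expansion (b : ℕ) (ξ H : ℝ) (w : ℕ → ℤ) : Prop :=
  ∃ l m r : ℤ, l ≠ 0 ∧ m ≠ 0 ∧ |(l : ℝ)| ≤ H ∧ |(m : ℝ)| ≤ H ∧ (∀ k, 1 ≤ k → |(w k : ℝ)| ≤ H) ∧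
    HasSum (fun k => (w k : ℝ) / (b : ℝ) ^ k) ((l * ξ + r) / m)

/-- the integers `b ^ n w 0 + … + w n` -/
def W (b : ℕ) (w : ℕ → ℤ) : ℕ → ℤ
  | 0 => w 0
  | n + 1 => b * W b w n + w (n + 1)

lemma W_sum (b : ℕ) (hb : 2 ≤ b) (w : ℕ → ℤ) (n : ℕ) :
    ∑ k ∈ range (n + 1), (w k : ℝ) / (b : ℝ) ^ k = (W b w n : ℝ) / (b : ℝ) ^ n := by
  have hb0 : (b : ℝ) ≠ 0 := by
    have : 0 < b := by omega
    positivity
  induction n with
  | zero => simp [W]
  | succ n ih =>
    rw [sum_range_succ, ih, W]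
    push_cast
    field_simp
    ring

lemma W_close (b : ℕ) (hb : 2 ≤ b) (w : ℕ → ℤ) (x H : ℝ) (hw : ∀ k, 1 ≤ k → |(w k : ℝ)| ≤ H)
    (hx : HasSum (fun k => (w k : ℝ) / (b : ℝ) ^ k) x) (n : ℕ) :
    |x * (b : ℝ) ^ n - W b w n| ≤ H := by
  have hbR : (2 : ℝ) ≤ b := by exact_mod_cast hb
  have hb0 : (0 : ℝ) < b := by linarith
  have hH : 0 ≤ H := (abs_nonneg _).trans (hw 1 le_rfl)
  have h1 := (hasSum_nat_add_iff' (n + 1)).2 hx
  rw [W_sum b hb w n] at h1
  have h2 : HasSum (fun k : ℕ => H / (b : ℝ) ^ (n + 1) * ((b : ℝ)⁻¹) ^ k)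
      (H / (b : ℝ) ^ (n + 1) * (1 - (b : ℝ)⁻¹)⁻¹) :=
    (hasSum_geometric_of_lt_one (by positivity) (inv_lt_one_of_one_lt₀ (by linarith))).mul_left _
  have h3 := h1.norm_le_of_bounded h2 (fun k => by
    rw [Real.norm_eq_abs, abs_div, abs_of_pos (show (0 : ℝ) < (b : ℝ) ^ (k + (n + 1)) by positivity),
      inv_pow, ← div_eq_mul_inv, div_div, ← pow_add, add_comm (n + 1) k]
    exact div_le_div_of_nonneg_right (hw _ (by omega)) (by positivity))
  rw [Real.norm_eq_abs] at h3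
  have h4 : |x * (b : ℝ) ^ n - W b w n| = |x - (W b w n : ℝ) / (b : ℝ) ^ n| * (b : ℝ) ^ n := by
    rw [← abs_of_pos (show (0 : ℝ) < (b : ℝ) ^ n by positivity), ← abs_mul,
      abs_of_pos (show (0 : ℝ) < (b : ℝ) ^ n by positivity)]
    congr 1
    field_simp
  rw [h4]
  calc |x - (W b w n : ℝ) / (b : ℝ) ^ n| * (b : ℝ) ^ n
      ≤ (H / (b : ℝ) ^ (n + 1) * (1 - (b : ℝ)⁻¹)⁻¹) * (b : ℝ) ^ n :=
        mul_le_mul_of_nonneg_right h3 (by positivity)
    _ = H / (b - 1) := by
        have : (b : ℝ) - 1 ≠ 0 := by linarith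
        have h5 : (1 : ℝ) - (b : ℝ)⁻¹ = (b - 1) / b := by field_simp
        rw [h5, pow_succ]
        field_simp
    _ ≤ H := by
        apply div_le_self hH
        linarith

lemma W_diff (b : ℕ) (w : ℕ → ℤ) (i j n : ℕ) (h : ∀ t < n, w (i + 1 + t) = w (j + 1 + t)) :
    W b w (j + n) - W b w (i + n) = (W b w j - W b w i) * (b : ℤ) ^ n := by
  induction n with
  | zero => simp
  | succ n ih =>
    have h1 := ih fun t ht => h t (by omega)
    have h4 := h n (by omega)
    rw [show i + 1 + n = i + n + 1 by ring, show j + 1 + n = j + n + 1 by ring] at h4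
    rw [← add_assoc, ← add_assoc, W, W, h4, pow_succ]
    linear_combination (b : ℤ) * h1

/-- Blocks of length `n ≥ ε N` at places `i < j ≤ N` are different. -/
theorem no_repeat (b : ℕ) (hb : 2 ≤ b) (ξ : ℝ) (hξ : IsAlgebraic ℚ ξ) (hirr : Irrational ξ)
    (ε : ℝ) (hε : 0 < ε) :
    ∃ η : ℝ, 0 < η ∧ ∃ N₀ : ℕ, ∀ N : ℕ, N₀ ≤ N → ∀ w : ℕ → ℤ,
      Expansion b ξ (Real.exp (η * N)) w → ∀ n : ℕ, ε * N ≤ n → ∀ i j : ℕ, i < j → j ≤ N →
      ∃ t < n, w (i + 1 + t) ≠ w (j + 1 + t) := by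
  have hbR : (2 : ℝ) ≤ b := by exact_mod_cast hb
  have hb0 : (0 : ℝ) < b := by linarith
  have hlogb : 0 < Real.log b := Real.log_pos (by linarith)
  have hlog2 : (1 : ℝ) / 2 ≤ Real.log b := by
    have h1 : Real.log 2 ≤ Real.log b := Real.log_le_log (by norm_num) hbR
    have := Real.log_two_gt_d9
    linarith
  -- parameters
  set a : ℝ := ε / 8 with ha
  have ha0 : 0 < a := by positivity
  set δ : ℝ := a / (1 + a) with hδ
  have hδ0 : 0 < δ := by positivity
  have hδ1 : δ ≤ 1 := by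
    rw [hδ, div_le_one (by positivity)]
    linarith
  obtain ⟨η', hη', L0, hmain⟩ := Pool.Agent.H648R2.S.merge b hb ξ hξ hirr 2 δ hδ0
  refine ⟨min (ε / 16) (η' * a / 2), lt_min (by positivity) (by positivity),
    max ⌈(L0 : ℝ) / a⌉₊ ⌈16 / ε⌉₊, fun N hN w hw n hn i j hij hj => ?_⟩
  set η : ℝ := min (ε / 16) (η' * a / 2) with hη
  have hη1 : η ≤ ε / 16 := min_le_left _ _
  have hη2 : η ≤ η' * a / 2 := min_le_right _ _
  have hN1 : (L0 : ℝ) / a ≤ N :=
    (Nat.le_ceil _).trans (by exact_mod_cast (le_max_left _ _).trans hN)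
  have hN2 : 16 / ε ≤ N :=
    (Nat.le_ceil _).trans (by exact_mod_cast (le_max_right _ _).trans hN)
  by_contra hcon
  push Not at hcon
  obtain ⟨l, m, r, hl0, hm0, hl, hm, hwk, hx⟩ := hw
  set H : ℝ := Real.exp (η * N) with hH
  have hH0 : 0 < H := Real.exp_pos _
  set x : ℝ := (l * ξ + r) / m with hxd
  have hm0' : (m : ℝ) ≠ 0 := by exact_mod_cast hm0
  have hdiff := W_diff b w i j n hcon
  have c1 := W_close b hb w x H hwk hx (j + n)
  have c2 := W_close b hb w x H hwk hx (i + n)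
  -- the shift
  set L : ℕ := ⌈a * N⌉₊ with hL
  have hN0 : (0 : ℝ) ≤ N := Nat.cast_nonneg _
  have hL1 : a * N ≤ L := Nat.le_ceil _
  have hL2 : (L : ℝ) < a * N + 1 := Nat.ceil_lt_add_one (by positivity)
  have hL0 : L0 ≤ L := by
    rw [div_le_iff₀ ha0] at hN1
    have : (L0 : ℝ) ≤ L := by linarith
    exact_mod_cast this
  rw [div_le_iff₀ hε] at hN2
  -- `(1 + δ) L ≤ n - ε N / 2`
  have hLn : (1 + δ) * L ≤ n - ε * N / 2 := by
    have h1 : (L : ℝ) ≤ 2 * (a * N) := by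
      have : 1 ≤ a * N := by rw [ha]; linarith
      linarith
    have h2 : (1 + δ) * L ≤ 2 * L := by
      have : (0 : ℝ) ≤ L := Nat.cast_nonneg _
      nlinarith
    have h3 : 2 * (2 * (a * N)) = ε * N / 2 := by rw [ha]; ring
    linarith
  have hLn' : L ≤ n := by
    have : (L : ℝ) ≤ n := by
      have h1 : (0 : ℝ) ≤ L := Nat.cast_nonneg _
      have h2 : 0 ≤ ε * N := by positivity
      nlinarith
    exact_mod_cast this
  have hexp : ∀ e : ℕ, e ≤ N → δ * ((e + L : ℕ) : ℝ) ≤ L := by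
    intro e he
    have he' : (e : ℝ) ≤ N := by exact_mod_cast he
    rw [hδ, div_mul_eq_mul_div, div_le_iff₀ (by positivity)]
    push_cast
    nlinarith
  have hHl : H ≤ Real.exp (η' * (L * Real.log b)) := by
    apply Real.exp_le_exp.2
    calc η * N ≤ (η' * a / 2) * N := mul_le_mul_of_nonneg_right hη2 hN0
      _ = η' * ((a * N) * (1 / 2)) := by ring
      _ ≤ η' * (L * Real.log b) := by
          apply mul_le_mul_of_nonneg_left _ hη'.le
          exact mul_le_mul hL1 hlog2 (by norm_num) (Nat.cast_nonneg _)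
  set P : ℤ := W b w j - W b w i with hP
  have hres := hmain L hL0 ![j + L, i + L] (by
      intro k; fin_cases k <;> simp) (by
      intro k
      fin_cases k
      · exact hexp j hj
      · exact hexp i (by omega)) ![l, -l] (by
      intro k
      fin_cases k
      · simpa using hl.trans hHl
      · simpa using hl.trans hHl) (by
      rw [Fin.sum_univ_two]
      simp only [Matrix.cons_val_zero, Matrix.cons_val_one]
      have h1 : (b : ℤ) ^ (i + L) < (b : ℤ) ^ (j + L) :=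
        pow_lt_pow_right₀ (by exact_mod_cast (by omega : 1 < b)) (by omega)
      intro h2
      have h3 : l * ((b : ℤ) ^ (j + L) - (b : ℤ) ^ (i + L)) = 0 := by linarith
      rcases mul_eq_zero.1 h3 with h4 | h4
      · exact hl0 h4
      · omega) (m * P * (b : ℤ) ^ L - r * ((b : ℤ) ^ (j + L) - (b : ℤ) ^ (i + L)))
  rw [Fin.sum_univ_two] at hres
  simp only [Matrix.cons_val_zero, Matrix.cons_val_one] at hres
  push_cast at hres
  -- the upper bound
  have key : ξ * (l * (b : ℝ) ^ (j + L) + -l * (b : ℝ) ^ (i + L)) -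
      (m * P * (b : ℝ) ^ L - r * ((b : ℝ) ^ (j + L) - (b : ℝ) ^ (i + L))) =
      m * ((x * (b : ℝ) ^ (j + n) - W b w (j + n)) - (x * (b : ℝ) ^ (i + n) - W b w (i + n))) /
        (b : ℝ) ^ (n - L) := by
    have h1 : ((W b w (j + n) : ℤ) : ℝ) - W b w (i + n) = P * (b : ℝ) ^ n := by
      exact_mod_cast hdiff
    have h2 : m * ((x * (b : ℝ) ^ (j + n) - W b w (j + n)) -
        (x * (b : ℝ) ^ (i + n) - W b w (i + n))) =
        (l * ξ + r) * ((b : ℝ) ^ (j + n) - (b : ℝ) ^ (i + n)) - m * (P * (b : ℝ) ^ n) := by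
      rw [← h1, hxd]
      field_simp
      ring
    rw [h2]
    obtain ⟨v, rfl⟩ := Nat.exists_eq_add_of_le hLn'
    rw [Nat.add_sub_cancel_left, eq_div_iff (by positivity)]
    ring
  rw [key, abs_div, abs_of_pos (show (0 : ℝ) < (b : ℝ) ^ (n - L) by positivity),
    lt_div_iff₀ (by positivity), abs_mul] at hres
  have hup : |(m : ℝ)| * |(x * (b : ℝ) ^ (j + n) - W b w (j + n)) -
      (x * (b : ℝ) ^ (i + n) - W b w (i + n))| ≤ H * (2 * H) := by
    apply mul_le_mul hm _ (abs_nonneg _) hH0.le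
    refine (abs_sub _ _).trans ?_
    linarith
  have hpow : (b : ℝ) ^ (n - L) = Real.exp ((n - L : ℕ) * Real.log b) := by
    rw [← Real.rpow_natCast, Real.rpow_def_of_pos hb0, mul_comm]
  rw [hpow, ← Real.exp_add] at hres
  have h5 : H * (2 * H) ≤
      Real.exp (-(δ * (L * Real.log b)) + ((n - L : ℕ) : ℝ) * Real.log b) := by
    have h6 : (2 : ℝ) ≤ Real.exp 1 := by
      have := Real.exp_one_gt_d9
      linarith
    calc H * (2 * H) ≤ H * (Real.exp 1 * H) := by
          apply mul_le_mul_of_nonneg_left _ hH0.le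
          exact mul_le_mul_of_nonneg_right h6 hH0.le
      _ = Real.exp (η * N + (1 + η * N)) := by rw [hH, Real.exp_add, Real.exp_add]
      _ ≤ _ := by
          apply Real.exp_le_exp.2
          rw [Nat.cast_sub hLn']
          have h7 : (ε * N / 2) * (1 / 2) ≤ (n - (1 + δ) * L) * Real.log b := by
            apply mul_le_mul (by linarith) hlog2 (by norm_num)
            have : 0 ≤ ε * N := by positivity
            linarith
          have h8 : η * N ≤ ε / 16 * N := mul_le_mul_of_nonneg_right hη1 hN0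
          linarith
  linarith

end Pool.Agent.V7H79.RD
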