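import Mathlib
import Pool.Agent.V7H79.RD.Core

/-!
# Sequences of low complexity and outputs of automata differ from every expansion of an algebraic
irrational number at many places
-/

set_option autoImplicit false

namespace Pool.Agent.V7H79.RD

open Finset

/-- the number of places `k` with `M < k ≤ N` at which `w` and `c` differ -/
def wrong (w c : ℕ → ℤ) (M N : ℕ) : ℕ := ((Ioc M N).filter fun k => w k ≠ c k).card

/-- the number of different blocks `c (i + 1), …, c (i + n)` with `M ≤ i` and `i + n ≤ N` -/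
def blocks (c : ℕ → ℤ) (n M N : ℕ) : ℕ :=
  (((Icc M N).filter fun i => i + n ≤ N).image fun i (t : Fin n) => c (i + 1 + t)).card

lemma blocks_mono (c : ℕ → ℤ) (n : ℕ) {M M' N N' : ℕ} (hM : M' ≤ M) (hN : N ≤ N') :
    blocks c n M N ≤ blocks c n M' N' := by
  unfold blocks
  apply card_le_card
  apply image_subset_image
  intro i hi
  rw [mem_filter, mem_Icc] at hi ⊢
  omega

lemma Expansion.mono {b : ℕ} {ξ H H' : ℝ} {w : ℕ → ℤ} (h : Expansion b ξ H w) (hH : H ≤ H') :
    Expansion b ξ H' w := by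
  obtain ⟨l, m, r, hl0, hm0, hl, hm, hw, hx⟩ := h
  exact ⟨l, m, r, hl0, hm0, hl.trans hH, hm.trans hH, fun k hk => (hw k hk).trans hH, hx⟩

/-- The product inequality. -/
theorem window (b : ℕ) (hb : 2 ≤ b) (ξ : ℝ) (hξ : IsAlgebraic ℚ ξ) (hirr : Irrational ξ)
    (ε : ℝ) (hε : 0 < ε) :
    ∃ η : ℝ, 0 < η ∧ ∃ N₀ : ℕ, ∀ N : ℕ, N₀ ≤ N → ∀ w : ℕ → ℤ,
      Expansion b ξ (Real.exp (η * N)) w → ∀ n : ℕ, ε * N ≤ n → ∀ M : ℕ, ∀ c : ℕ → ℤ,
      N < M + (wrong w c M N + 1) * (blocks c n M N + n) := by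
  obtain ⟨η, hη, N₀, h0⟩ := no_repeat b hb ξ hξ hirr ε hε
  refine ⟨η, hη, N₀, fun N hN w hw n hn M c => ?_⟩
  by_contra hcon
  push Not at hcon
  set E := wrong w c M N with hE
  set p := blocks c n M N with hp
  -- an interval without wrong places
  obtain ⟨l, hl, hfree⟩ : ∃ l < E + 1, ∀ k, M + l * (p + n) < k → k ≤ M + (l + 1) * (p + n) →
      w k = c k := by
    by_contra hno
    push Not at hno
    choose! f hf using hno
    have hcard : (range (E + 1)).card ≤ ((Ioc M N).filter fun k => w k ≠ c k).card := by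
      apply card_le_card_of_injOn f
      · intro l hl
        rw [mem_coe, mem_range] at hl
        obtain ⟨h1, h2, h3⟩ := hf l hl
        rw [mem_coe, mem_filter, mem_Ioc]
        refine ⟨⟨?_, ?_⟩, h3⟩
        · exact lt_of_le_of_lt (Nat.le_add_right _ _) h1
        · refine h2.trans (le_trans ?_ hcon)
          exact Nat.add_le_add_left (Nat.mul_le_mul_right _ hl) _
      · intro l hl l' hl' heq
        rw [mem_coe, mem_range] at hl hl'
        obtain ⟨h1, h2, _⟩ := hf l hl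
        obtain ⟨h1', h2', _⟩ := hf l' hl'
        rw [heq] at h1 h2
        by_contra hne
        rcases Nat.lt_or_gt_of_ne hne with hlt | hlt
        · have : (l + 1) * (p + n) ≤ l' * (p + n) := Nat.mul_le_mul_right _ hlt
          omega
        · have : (l' + 1) * (p + n) ≤ l * (p + n) := Nat.mul_le_mul_right _ hlt
          omega
    rw [card_range] at hcard
    have : ((Ioc M N).filter fun k => w k ≠ c k).card = E := rfl
    omega
  -- two equal blocks
  have hend : M + (l + 1) * (p + n) ≤ N :=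
    le_trans (Nat.add_le_add_left (Nat.mul_le_mul_right _ hl) _) hcon
  set a := M + l * (p + n) with ha
  have ha2 : M + (l + 1) * (p + n) = a + p + n := by rw [ha]; ring
  rw [ha2] at hfree hend
  obtain ⟨u, hu, v, hv, huv, heq⟩ := exists_ne_map_eq_of_card_lt_of_maps_to
    (s := range (p + 1)) (t := ((Icc M N).filter fun i => i + n ≤ N).image
      fun i (t : Fin n) => c (i + 1 + t)) (f := fun u (t : Fin n) => c (a + u + 1 + t)) (by
      rw [card_range]
      exact Nat.lt_succ_self p) (by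
      intro u hu
      rw [mem_coe, mem_range] at hu
      rw [mem_coe, mem_image]
      refine ⟨a + u, ?_, rfl⟩
      rw [mem_filter, mem_Icc]
      omega)
  rw [mem_range] at hu hv
  -- the repetition in the expansion
  have hrep : ∀ u v : ℕ, u < v → u < p + 1 → v < p + 1 →
      (∀ t : Fin n, c (a + u + 1 + t) = c (a + v + 1 + t)) → False := by
    intro u v huv hu hv h
    obtain ⟨t, ht, hne⟩ := h0 N hN w hw n hn (a + u) (a + v) (by omega) (by omega)
    apply hne
    rw [hfree _ (by omega) (by omega), hfree _ (by omega) (by omega)]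
    exact h ⟨t, ht⟩
  rcases Nat.lt_or_gt_of_ne huv with hlt | hlt
  · exact hrep u v hlt hu hv fun t => congrFun heq t
  · exact hrep v u hlt hv hu fun t => (congrFun heq t).symm

/-- Every interval `(N, (1 + κ) N]` has more than `K` wrong places. -/
theorem intervals (b : ℕ) (hb : 2 ≤ b) (ξ : ℝ) (hξ : IsAlgebraic ℚ ξ) (hirr : Irrational ξ)
    (C K : ℕ) (κ : ℝ) (hκ : 0 < κ) :
    ∃ η : ℝ, 0 < η ∧ ∃ N₀ : ℕ, ∀ N : ℕ, N₀ ≤ N → ∀ w : ℕ → ℤ,
      Expansion b ξ (Real.exp (η * N)) w → ∀ c : ℕ → ℤ,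
      (∀ n, 1 ≤ n → blocks c n N ⌊(1 + κ) * N⌋₊ ≤ C * n) → K < wrong w c N ⌊(1 + κ) * N⌋₊ := by
  set D : ℕ := (K + 1) * (C + 1) with hD
  have hD1 : 1 ≤ D := Nat.one_le_iff_ne_zero.2 (by positivity)
  have hDR : (1 : ℝ) ≤ D := by exact_mod_cast hD1
  obtain ⟨η, hη, N1, h1⟩ := window b hb ξ hξ hirr (κ / (4 * D * (1 + κ))) (by positivity)
  refine ⟨η, hη, max N1 ⌈4 * D / κ⌉₊, fun N hN w hw c hc => ?_⟩
  have hN1 : N1 ≤ N := (le_max_left _ _).trans hN
  have hN2 : 4 * D / κ ≤ N := (Nat.le_ceil _).trans (by exact_mod_cast (le_max_right _ _).trans hN)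
  rw [div_le_iff₀ hκ] at hN2
  have hN0 : (0 : ℝ) ≤ N := Nat.cast_nonneg _
  set N' := ⌊(1 + κ) * N⌋₊ with hN'
  have hN'1 : (N' : ℝ) ≤ (1 + κ) * N := Nat.floor_le (by positivity)
  have hN'2 : (1 + κ) * N < N' + 1 := Nat.lt_floor_add_one _
  have hNN' : N ≤ N' := by
    rw [hN']
    apply Nat.le_floor
    nlinarith
  have hNN'R : (N : ℝ) ≤ N' := by exact_mod_cast hNN'
  set n := ⌊κ * N / (2 * D)⌋₊ with hn
  have hn1 : (n : ℝ) ≤ κ * N / (2 * D) := Nat.floor_le (by positivity)
  have hn2 : κ * N / (2 * D) < n + 1 := Nat.lt_floor_add_one _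
  rw [le_div_iff₀ (by positivity)] at hn1
  rw [div_lt_iff₀ (by positivity)] at hn2
  have hn3 : κ * N ≤ 4 * D * n := by nlinarith
  have hn4 : 1 ≤ n := by
    by_contra h
    have : n = 0 := by omega
    rw [this] at hn3
    push_cast at hn3
    nlinarith
  by_contra hcon
  push Not at hcon
  have h2 := h1 N' (hN1.trans hNN') w (hw.mono (Real.exp_le_exp.2
    (mul_le_mul_of_nonneg_left hNN'R hη.le))) n (by
      rw [div_mul_eq_mul_div, div_le_iff₀ (by positivity)]
      calc κ * N' ≤ κ * ((1 + κ) * N) := mul_le_mul_of_nonneg_left hN'1 hκ.le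
        _ = (1 + κ) * (κ * N) := by ring
        _ ≤ (1 + κ) * (4 * D * n) := mul_le_mul_of_nonneg_left hn3 (by positivity)
        _ = n * (4 * D * (1 + κ)) := by ring) N c
  have h3 : (wrong w c N N' + 1) * (blocks c n N N' + n) ≤ D * n := by
    calc _ ≤ (K + 1) * (C * n + n) := Nat.mul_le_mul (by omega) (by have := hc n hn4; omega)
      _ = D * n := by rw [hD]; ring
  have h4 : (N' : ℝ) < N + D * n := by
    have : N' < N + D * n := by omega
    exact_mod_cast this
  nlinarith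

/-- disjoint windows -/
lemma wrong_sum (w c : ℕ → ℤ) (g h : ℕ) :
    ∑ j ∈ Ico g h, wrong w c (2 ^ j) (2 ^ (j + 1)) ≤ wrong w c 0 (2 ^ h) := by
  unfold wrong
  rw [← card_biUnion]
  · apply card_le_card
    intro k hk
    rw [mem_biUnion] at hk
    obtain ⟨j, hj, hk⟩ := hk
    rw [mem_Ico] at hj
    rw [mem_filter, mem_Ioc] at hk ⊢
    refine ⟨⟨by omega, hk.1.2.trans (Nat.pow_le_pow_right (by omega) (by omega))⟩, hk.2⟩
  · intro j _ j' _ hne
    rw [Function.onFun, disjoint_left]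
    intro k hk hk'
    rw [mem_filter, mem_Ioc] at hk hk'
    rcases Nat.lt_or_gt_of_ne hne with hlt | hlt
    · have : 2 ^ (j + 1) ≤ 2 ^ j' := Nat.pow_le_pow_right (by omega) hlt
      omega
    · have : 2 ^ (j' + 1) ≤ 2 ^ j := Nat.pow_le_pow_right (by omega) hlt
      omega

lemma wrong_mono (w c : ℕ → ℤ) {M N N' : ℕ} (h : N ≤ N') : wrong w c M N ≤ wrong w c M N' := by
  unfold wrong
  apply card_le_card
  intro k hk
  rw [mem_filter, mem_Ioc] at hk ⊢
  exact ⟨⟨hk.1.1, hk.1.2.trans h⟩, hk.2⟩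

/-- More than `K log N` wrong places up to `N`. -/
theorem logarithm (b : ℕ) (hb : 2 ≤ b) (ξ : ℝ) (hξ : IsAlgebraic ℚ ξ) (hirr : Irrational ξ)
    (C K : ℕ) :
    ∃ N₀ : ℕ, ∀ N : ℕ, N₀ ≤ N → ∀ w : ℕ → ℤ, Expansion b ξ ((N : ℝ) ^ K) w → ∀ c : ℕ → ℤ,
      (∀ n, 1 ≤ n → blocks c n 0 N ≤ C * n) → K * Real.log N < wrong w c 0 N := by
  obtain ⟨η, hη, N1, h1⟩ := intervals b hb ξ hξ hirr C (4 * K) 1 one_pos
  obtain ⟨S1, hS1⟩ := exists_nat_ge (32 * (K : ℝ) ^ 2 / η ^ 2)
  set S : ℕ := max N1 (max S1 4) with hS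
  have hSN1 : N1 ≤ S := le_max_left _ _
  have hSS1 : S1 ≤ S := (le_max_left _ _).trans (le_max_right _ _)
  have hS4 : 4 ≤ S := (le_max_right _ _).trans (le_max_right _ _)
  refine ⟨4 * S ^ 2, fun N hN w hw c hc => ?_⟩
  have hN0 : N ≠ 0 := by
    have : 4 ^ 2 ≤ S ^ 2 := Nat.pow_le_pow_left hS4 2
    omega
  set h := Nat.log 2 N with hh
  have hlo : 2 ^ h ≤ N := Nat.pow_log_le_self 2 hN0
  have hhi : N < 2 ^ (h + 1) := Nat.lt_pow_succ_log_self (by omega) N
  set s := 2 ^ (h / 2) with hs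
  have hsq : N < 4 * s ^ 2 := by
    calc N < 2 ^ (h + 1) := hhi
      _ ≤ 2 ^ (2 * (h / 2) + 2) := Nat.pow_le_pow_right (by omega) (by omega)
      _ = 4 * s ^ 2 := by rw [hs]; ring
  have hSs : S ≤ s := by
    by_contra hcon
    push Not at hcon
    have : s ^ 2 ≤ S ^ 2 := Nat.pow_le_pow_left hcon.le 2
    omega
  have hh1 : 1 ≤ h := by
    by_contra hcon
    have h5 : h / 2 = 0 := by omega
    rw [h5, pow_zero] at hs
    omega
  -- `K log N ≤ η s`
  have hlog : K * Real.log N ≤ η * s := by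
    have hs0 : (0 : ℝ) < s := by
      have : 0 < s := by omega
      exact_mod_cast this
    set y : ℝ := Real.sqrt (2 * s) with hy
    have hy0 : 0 < y := Real.sqrt_pos.2 (by positivity)
    have hy2 : y ^ 2 = 2 * s := Real.sq_sqrt (by positivity)
    have hNy : (N : ℝ) ≤ y ^ 4 := by
      have h2 : (N : ℝ) ≤ 4 * (s : ℝ) ^ 2 := by exact_mod_cast hsq.le
      calc (N : ℝ) ≤ 4 * (s : ℝ) ^ 2 := h2
        _ = (y ^ 2) ^ 2 := by rw [hy2]; ring
        _ = y ^ 4 := by ring
    have h3 : Real.log N ≤ 4 * y := by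
      calc Real.log N ≤ Real.log (y ^ 4) := by
            apply Real.log_le_log _ hNy
            have : 0 < N := by omega
            exact_mod_cast this
        _ = 4 * Real.log y := by rw [Real.log_pow]; norm_num
        _ ≤ 4 * y := by
            have := Real.log_le_sub_one_of_pos hy0
            linarith
    have h4 : 8 * K ≤ η * y := by
      have h5 : 32 * (K : ℝ) ^ 2 / η ^ 2 ≤ s :=
        hS1.trans (by exact_mod_cast hSS1.trans hSs)
      rw [div_le_iff₀ (by positivity)] at h5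
      have h6 : (8 * (K : ℝ)) ^ 2 ≤ (η * y) ^ 2 := by
        calc (8 * (K : ℝ)) ^ 2 = 2 * (32 * (K : ℝ) ^ 2) := by ring
          _ ≤ 2 * (s * η ^ 2) := by linarith
          _ = (η * y) ^ 2 := by rw [mul_pow, hy2]; ring
      exact le_of_sq_le_sq h6 (by positivity)
    calc K * Real.log N ≤ K * (4 * y) := mul_le_mul_of_nonneg_left h3 (Nat.cast_nonneg _)
      _ = (8 * K) * y / 2 := by ring
      _ ≤ (η * y) * y / 2 := by
          apply div_le_div_of_nonneg_right _ (by norm_num)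
          exact mul_le_mul_of_nonneg_right h4 hy0.le
      _ = η * s := by
          have : η * y * y / 2 = η * y ^ 2 / 2 := by ring
          rw [this, hy2]
          ring
  have hpow : (N : ℝ) ^ K ≤ Real.exp (η * s) := by
    have h2 : (N : ℝ) ^ K = Real.exp (K * Real.log N) := by
      rw [← Real.rpow_natCast, Real.rpow_def_of_pos (by
        have : 0 < N := by omega
        exact_mod_cast this), mul_comm]
    rw [h2]
    exact Real.exp_le_exp.2 hlog
  -- each window has more than `4 K` wrong places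
  have hwin : ∀ j ∈ Ico (h / 2) h, 4 * K + 1 ≤ wrong w c (2 ^ j) (2 ^ (j + 1)) := by
    intro j hj
    rw [mem_Ico] at hj
    have hj1 : s ≤ 2 ^ j := Nat.pow_le_pow_right (by omega) hj.1
    have hj2 : 2 ^ (j + 1) ≤ N := (Nat.pow_le_pow_right (by omega) hj.2).trans hlo
    have hfl : ⌊(1 + 1 : ℝ) * ((2 ^ j : ℕ) : ℝ)⌋₊ = 2 ^ (j + 1) := by
      have : (1 + 1 : ℝ) * ((2 ^ j : ℕ) : ℝ) = ((2 ^ (j + 1) : ℕ) : ℝ) := by
        push_cast
        ring
      rw [this, Nat.floor_natCast]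
    have h2 := h1 (2 ^ j) (hSN1.trans (hSs.trans hj1)) w (hw.mono (hpow.trans
      (Real.exp_le_exp.2 (mul_le_mul_of_nonneg_left (by exact_mod_cast hj1) hη.le)))) c
    rw [hfl] at h2
    exact h2 fun n hn => (blocks_mono c n (Nat.zero_le _) hj2).trans (hc n hn)
  have h2 : (h - h / 2) * (4 * K + 1) ≤ wrong w c 0 N := by
    calc (h - h / 2) * (4 * K + 1) = ∑ j ∈ Ico (h / 2) h, (4 * K + 1) := by
          rw [sum_const, Nat.card_Ico, smul_eq_mul]
      _ ≤ ∑ j ∈ Ico (h / 2) h, wrong w c (2 ^ j) (2 ^ (j + 1)) := sum_le_sum hwin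
      _ ≤ wrong w c 0 (2 ^ h) := wrong_sum w c _ _
      _ ≤ wrong w c 0 N := wrong_mono w c hlo
  have h3 : h * (4 * K + 1) ≤ 2 * wrong w c 0 N := by
    calc h * (4 * K + 1) ≤ (2 * (h - h / 2)) * (4 * K + 1) := Nat.mul_le_mul_right _ (by omega)
      _ = 2 * ((h - h / 2) * (4 * K + 1)) := by ring
      _ ≤ _ := Nat.mul_le_mul_left _ h2
  have h4 : (h : ℝ) * (4 * K + 1) ≤ 2 * wrong w c 0 N := by exact_mod_cast h3
  have h5 : Real.log N ≤ h + 1 := by
    have h6 : Real.log N ≤ Real.log ((2 : ℝ) ^ (h + 1)) := by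
      apply Real.log_le_log
      · have : 0 < N := by omega
        exact_mod_cast this
      · exact_mod_cast hhi.le
    rw [Real.log_pow] at h6
    push_cast at h6
    have h7 : Real.log 2 ≤ 1 := by
      have := Real.log_two_lt_d9
      linarith
    have h8 : ((h : ℝ) + 1) * Real.log 2 ≤ ((h : ℝ) + 1) * 1 :=
      mul_le_mul_of_nonneg_left h7 (by positivity)
    linarith
  have h6 : K * Real.log N ≤ K * (h + 1) := mul_le_mul_of_nonneg_left h5 (Nat.cast_nonneg _)
  have h7 : (1 : ℝ) ≤ h := by exact_mod_cast hh1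
  have h8 : (0 : ℝ) ≤ K := Nat.cast_nonneg _
  nlinarith

/-- the state after reading further digits -/
lemma iterate_state {Q k : ℕ} (hk : 2 ≤ k) (s : ℕ → Fin Q) (step : Fin Q → Fin k → Fin Q)
    (hs : ∀ n, 1 ≤ n → ∀ d : Fin k, s (k * n + d) = step (s n) d) (r : ℕ) :
    ∃ F : ℕ → Fin Q → Fin Q, ∀ x < k ^ r, ∀ q, 1 ≤ q → s (k ^ r * q + x) = F x (s q) := by
  induction r with
  | zero =>
    refine ⟨fun _ p => p, fun x hx q _ => ?_⟩
    have : x = 0 := by simpa using hx
    rw [this]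
    simp
  | succ r ih =>
    obtain ⟨F, hF⟩ := ih
    refine ⟨fun x p => step (F (x / k) p) ⟨x % k, Nat.mod_lt _ (by omega)⟩,
      fun x hx q hq => ?_⟩
    have hx' : x / k < k ^ r := by
      rw [Nat.div_lt_iff_lt_mul (by omega)]
      rwa [pow_succ] at hx
    have h0 : 1 ≤ k ^ r * q + x / k := by
      have h1 : 0 < k ^ r * q := by positivity
      have h2 : 0 ≤ x / k := Nat.zero_le _
      omega
    beta_reduce
    rw [← hF _ hx' q hq, ← hs _ h0]
    congr 1
    have := Nat.div_add_mod x k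
    simp only
    calc k ^ (r + 1) * q + x = k ^ (r + 1) * q + (k * (x / k) + x % k) := by rw [this]
      _ = _ := by ring

/-- The number of blocks of the output of an automaton. -/
lemma blocks_pow {Q k : ℕ} (hk : 2 ≤ k) (s : ℕ → Fin Q) (step : Fin Q → Fin k → Fin Q)
    (out : Fin Q → ℤ) (hs : ∀ n, 1 ≤ n → ∀ d : Fin k, s (k * n + d) = step (s n) d)
    (n r M N : ℕ) (hn : n ≤ k ^ r) :
    blocks (fun i => out (s i)) n M N ≤ (Q * Q + 1) * k ^ r := by
  classical
  obtain ⟨F, hF⟩ := iterate_state hk s step hs r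
  have hkr : 0 < k ^ r := by positivity
  set g : ℕ → Fin Q × Fin Q × Fin (k ^ r) := fun i =>
    (s ((i + 1) / k ^ r), s ((i + 1) / k ^ r + 1), ⟨(i + 1) % k ^ r, Nat.mod_lt _ hkr⟩) with hg
  set Φ : Fin Q × Fin Q × Fin (k ^ r) → (Fin n → ℤ) := fun x t =>
    out (if (x.2.2 : ℕ) + t < k ^ r then F (x.2.2 + t) x.1 else
      F (x.2.2 + t - k ^ r) x.2.1) with hΦ
  have hfac : ((Icc M N).filter fun i => i + n ≤ N).image
      (fun i (t : Fin n) => out (s (i + 1 + t))) ⊆ (univ : Finset _).image Φ ∪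
        (range (k ^ r)).image (fun i (t : Fin n) => out (s (i + 1 + t))) := by
    intro w hw
    rw [mem_image] at hw
    obtain ⟨i, hi, rfl⟩ := hw
    rw [mem_filter, mem_Icc] at hi
    rw [mem_union, mem_image, mem_image]
    rcases Nat.lt_or_ge i (k ^ r) with hik | hik
    · exact Or.inr ⟨i, mem_range.2 hik, rfl⟩
    left
    refine ⟨g i, mem_univ _, ?_⟩
    funext t
    have ht := t.2
    have hq : 1 ≤ (i + 1) / k ^ r := by
      rw [Nat.one_le_div_iff hkr]
      omega
    have hdm := Nat.div_add_mod (i + 1) (k ^ r)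
    have hmod := Nat.mod_lt (i + 1) hkr
    simp only [hΦ, hg]
    congr 1
    split_ifs with hlt
    · rw [← hF _ hlt _ hq, ← add_assoc, hdm]
    · rw [← hF _ (by omega) _ (by omega)]
      congr 1
      have h3 : k ^ r * ((i + 1) / k ^ r + 1) = k ^ r * ((i + 1) / k ^ r) + k ^ r := by ring
      omega
  unfold blocks
  have h1 : ((univ : Finset (Fin Q × Fin Q × Fin (k ^ r))).image Φ).card ≤ Q * Q * k ^ r := by
    refine card_image_le.trans (le_of_eq ?_)
    rw [card_univ, Fintype.card_prod, Fintype.card_prod, Fintype.card_fin, Fintype.card_fin]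
    ring
  have h2 : ((range (k ^ r)).image (fun i (t : Fin n) => out (s (i + 1 + t)))).card ≤ k ^ r := by
    refine card_image_le.trans (le_of_eq (card_range _))
  have h3 := (card_le_card hfac).trans (card_union_le _ _)
  have h4 : (Q * Q + 1) * k ^ r = Q * Q * k ^ r + k ^ r := by ring
  refine h3.trans ?_
  omega

/-- The output of an automaton with `Q` states has at most `(Q ^ 2 + 1) k n` blocks of length
`n`. -/
lemma blocks_automaton {Q k : ℕ} (hk : 2 ≤ k) (s : ℕ → Fin Q) (step : Fin Q → Fin k → Fin Q)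
    (out : Fin Q → ℤ) (hs : ∀ n, 1 ≤ n → ∀ d : Fin k, s (k * n + d) = step (s n) d)
    (n M N : ℕ) (hn : 1 ≤ n) :
    blocks (fun i => out (s i)) n M N ≤ ((Q * Q + 1) * k) * n := by
  have h5 : n ≤ k ^ Nat.clog k n := Nat.le_pow_clog (by omega) n
  have h6 : k ^ Nat.clog k n ≤ k * n := by
    rcases Nat.eq_zero_or_pos (Nat.clog k n) with h | h
    · rw [h, pow_zero]
      exact Nat.one_le_iff_ne_zero.2 (by positivity)
    · have h7 : k ^ (Nat.clog k n - 1) < n := by
        rw [← Nat.lt_clog_iff_pow_lt (by omega)]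
        omega
      calc k ^ Nat.clog k n = k * k ^ (Nat.clog k n - 1) := by
            rw [← pow_succ']
            congr 1
            omega
        _ ≤ k * n := Nat.mul_le_mul_left _ h7.le
  calc _ ≤ (Q * Q + 1) * k ^ Nat.clog k n := blocks_pow hk s step out hs n _ M N h5
    _ ≤ (Q * Q + 1) * (k * n) := Nat.mul_le_mul_left _ h6
    _ = _ := by ring

end Pool.Agent.V7H79.RD
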