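import Mathlib
import Pool.Agent.V7H79.RD.Main

/-!
# The expansions of `√2` are far from the output of every finite automaton

The distance is the number of places, up to `N`, at which two sequences differ.  The bounds hold
for the digits of every irrational algebraic number `ξ`, more generally for all expansions, with
arbitrary integer digits of small size, of all numbers `(l ξ + r) / m`, and they are uniform.  No
hypothesis is assumed.
-/

set_option autoImplicit false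

namespace Pool.Agent.V7H79.RD.DistanceToAutomata

open Finset

/-- the integer part and the digits of `ξ` after the point in base `b` -/
noncomputable def digits (b : ℕ) (ξ : ℝ) (k : ℕ) : ℤ :=
  if k = 0 then ⌊ξ⌋ else ⌊ξ * (b : ℝ) ^ k⌋ % (b : ℤ)

/-- `w` is an expansion in base `b` of a number `(l ξ + r) / m` with integers `l ≠ 0`, `m ≠ 0`
and `w 1, w 2, …` of absolute value at most `H` (and any integers `r` and `w 0`) -/
def Expansion (b : ℕ) (ξ H : ℝ) (w : ℕ → ℤ) : Prop :=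
  ∃ l m r : ℤ, l ≠ 0 ∧ m ≠ 0 ∧ |(l : ℝ)| ≤ H ∧ |(m : ℝ)| ≤ H ∧ (∀ k, 1 ≤ k → |(w k : ℝ)| ≤ H) ∧
    HasSum (fun k => (w k : ℝ) / (b : ℝ) ^ k) ((l * ξ + r) / m)

/-- the number of places `k` with `M < k ≤ N` at which `w` and `c` differ -/
def wrong (w c : ℕ → ℤ) (M N : ℕ) : ℕ := ((Ioc M N).filter fun k => w k ≠ c k).card

/-- the number of different blocks `c (i + 1), …, c (i + n)` with `M ≤ i` and `i + n ≤ N` -/
def blocks (c : ℕ → ℤ) (n M N : ℕ) : ℕ :=
  (((Icc M N).filter fun i => i + n ≤ N).image fun i (t : Fin n) => c (i + 1 + t)).card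

/-- `c` is computed by an automaton with `Q` states which reads the digits of `n ≥ 1` in base `k`,
the most significant one first: `s n` is the state after reading `n`, `step` is the transition
function and `out` is the output function. -/
def Computes (k Q : ℕ) (c : ℕ → ℤ) : Prop :=
  ∃ (s : ℕ → Fin Q) (step : Fin Q → Fin k → Fin Q) (out : Fin Q → ℤ),
    (∀ n, 1 ≤ n → ∀ d : Fin k, s (k * n + d) = step (s n) d) ∧ ∀ n, c n = out (s n)

/-- Bounds for the distance from the expansions of `ξ` to the outputs of automata: in the interval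
`(N, (1 + κ) N]`, for digits, numerators and denominators of size `exp (η N)`, and in the interval
`[1, N]`, for size `N ^ K`. -/
def FarFromAutomata (b : ℕ) (ξ : ℝ) : Prop :=
  (∀ (k Q K : ℕ) (κ : ℝ), 2 ≤ k → 0 < κ → ∃ η : ℝ, 0 < η ∧ ∃ N₀ : ℕ, ∀ N : ℕ, N₀ ≤ N →
    ∀ w c : ℕ → ℤ, Expansion b ξ (Real.exp (η * N)) w → Computes k Q c →
      K < wrong w c N ⌊(1 + κ) * N⌋₊) ∧
  (∀ k Q K : ℕ, 2 ≤ k → ∃ N₀ : ℕ, ∀ N : ℕ, N₀ ≤ N → ∀ w c : ℕ → ℤ,
    Expansion b ξ ((N : ℝ) ^ K) w → Computes k Q c → K * Real.log N < wrong w c 0 N)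

/-- The same for all sequences with at most `C n` blocks of each length `n` in the interval. -/
def FarFromLinearComplexity (b : ℕ) (ξ : ℝ) : Prop :=
  (∀ (C K : ℕ) (κ : ℝ), 0 < κ → ∃ η : ℝ, 0 < η ∧ ∃ N₀ : ℕ, ∀ N : ℕ, N₀ ≤ N →
    ∀ w c : ℕ → ℤ, Expansion b ξ (Real.exp (η * N)) w →
      (∀ n, 1 ≤ n → blocks c n N ⌊(1 + κ) * N⌋₊ ≤ C * n) → K < wrong w c N ⌊(1 + κ) * N⌋₊) ∧
  (∀ C K : ℕ, ∃ N₀ : ℕ, ∀ N : ℕ, N₀ ≤ N → ∀ w c : ℕ → ℤ, Expansion b ξ ((N : ℝ) ^ K) w →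
    (∀ n, 1 ≤ n → blocks c n 0 N ≤ C * n) → K * Real.log N < wrong w c 0 N)

/-- An inequality for all sequences `c`. -/
def ProductInequality (b : ℕ) (ξ : ℝ) : Prop :=
  ∀ ε : ℝ, 0 < ε → ∃ η : ℝ, 0 < η ∧ ∃ N₀ : ℕ, ∀ N : ℕ, N₀ ≤ N →
    ∀ w : ℕ → ℤ, Expansion b ξ (Real.exp (η * N)) w → ∀ n : ℕ, ε * N ≤ n → ∀ M : ℕ, M ≤ N →
      ∀ c : ℕ → ℤ, N - M < (wrong w c M N + 1) * (blocks c n M N + n)

lemma digits_expansion (b : ℕ) (hb : 2 ≤ b) (ξ : ℝ) : Expansion b ξ b (digits b ξ) := by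
  have hbR : (2 : ℝ) ≤ b := by exact_mod_cast hb
  have hb0 : (0 : ℝ) < b := by linarith
  have hbZ : (0 : ℤ) < b := by exact_mod_cast (by omega : 0 < b)
  have hd : ∀ k, 1 ≤ k → |(digits b ξ k : ℝ)| ≤ b := by
    intro k hk
    unfold digits
    rw [if_neg (by omega)]
    have h1 := Int.emod_nonneg ⌊ξ * (b : ℝ) ^ k⌋ hbZ.ne'
    have h2 := Int.emod_lt_of_pos ⌊ξ * (b : ℝ) ^ k⌋ hbZ
    rw [abs_of_nonneg (by exact_mod_cast h1)]
    exact_mod_cast h2.le
  refine ⟨1, 1, 0, one_ne_zero, one_ne_zero, ?_, ?_, hd, ?_⟩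
  · push_cast; rw [abs_one]; linarith
  · push_cast; rw [abs_one]; linarith
  have hfl : ∀ n : ℕ, ∑ k ∈ range (n + 1), (digits b ξ k : ℝ) / (b : ℝ) ^ k =
      (⌊ξ * (b : ℝ) ^ n⌋ : ℝ) / (b : ℝ) ^ n := by
    intro n
    induction n with
    | zero => simp [digits]
    | succ n ih =>
      have h : ⌊ξ * (b : ℝ) ^ (n + 1)⌋ / (b : ℤ) = ⌊ξ * (b : ℝ) ^ n⌋ := by
        rw [← Int.floor_div_natCast]
        congr 1
        rw [pow_succ]
        field_simp
      have h2 := Int.emod_add_mul_ediv ⌊ξ * (b : ℝ) ^ (n + 1)⌋ b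
      rw [h] at h2
      have h3 : (digits b ξ (n + 1) : ℝ) =
          (⌊ξ * (b : ℝ) ^ (n + 1)⌋ : ℝ) - b * (⌊ξ * (b : ℝ) ^ n⌋ : ℝ) := by
        unfold digits
        rw [if_neg (by omega)]
        have h4 : ⌊ξ * (b : ℝ) ^ (n + 1)⌋ % (b : ℤ) =
            ⌊ξ * (b : ℝ) ^ (n + 1)⌋ - b * ⌊ξ * (b : ℝ) ^ n⌋ := by linarith
        rw [h4]
        push_cast
        ring
      rw [sum_range_succ, ih, h3, pow_succ]
      field_simp
      ring
  have hsum : Summable fun k => (digits b ξ k : ℝ) / (b : ℝ) ^ k := by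
    rw [← summable_nat_add_iff 1]
    apply Summable.of_norm_bounded (g := fun k : ℕ => (b : ℝ) * ((b : ℝ)⁻¹) ^ (k + 1))
    · apply Summable.mul_left
      rw [summable_nat_add_iff 1]
      exact summable_geometric_of_lt_one (by positivity) (inv_lt_one_of_one_lt₀ (by linarith))
    · intro k
      rw [Real.norm_eq_abs, abs_div, abs_of_pos (show (0 : ℝ) < (b : ℝ) ^ (k + 1) by positivity),
        inv_pow, ← div_eq_mul_inv]
      exact div_le_div_of_nonneg_right (hd _ (by omega)) (by positivity)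
  have h1 : HasSum (fun k => (digits b ξ k : ℝ) / (b : ℝ) ^ k) ξ := by
    rw [hsum.hasSum_iff_tendsto_nat]
    rw [← Filter.tendsto_add_atTop_iff_nat 1]
    simp only [hfl]
    have h2 : Filter.Tendsto (fun n : ℕ => ξ - ((b : ℝ)⁻¹) ^ n) Filter.atTop (nhds (ξ - 0)) :=
      tendsto_const_nhds.sub (tendsto_pow_atTop_nhds_zero_of_lt_one (by positivity)
        (inv_lt_one_of_one_lt₀ (by linarith)))
    rw [sub_zero] at h2
    refine tendsto_of_tendsto_of_tendsto_of_le_of_le h2 tendsto_const_nhds ?_ ?_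
    · intro n
      beta_reduce
      have h3 := Int.lt_floor_add_one (ξ * (b : ℝ) ^ n)
      rw [le_div_iff₀ (by positivity), sub_mul, inv_pow, inv_mul_cancel₀ (by positivity)]
      linarith
    · intro n
      beta_reduce
      rw [div_le_iff₀ (by positivity)]
      exact Int.floor_le _
  simpa using h1

/-- The result.  First the digits of `√2`; then the general bounds, of which they are an
instance. -/
theorem distance :
    (∀ k Q K : ℕ, 2 ≤ k → ∃ N₀ : ℕ, ∀ N : ℕ, N₀ ≤ N → ∀ c : ℕ → ℤ, Computes k Q c →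
      K * Real.log N < wrong (digits 2 (Real.sqrt 2)) c 0 N) ∧
    ∀ b : ℕ, 2 ≤ b → ∀ ξ : ℝ, Expansion b ξ b (digits b ξ) ∧ (IsAlgebraic ℚ ξ → Irrational ξ →
      FarFromAutomata b ξ ∧ FarFromLinearComplexity b ξ ∧ ProductInequality b ξ) := by
  have hpoor : ∀ k Q : ℕ, 2 ≤ k → ∀ c : ℕ → ℤ, Computes k Q c → ∀ M N n : ℕ, 1 ≤ n →
      Pool.Agent.V7H79.RD.blocks c n M N ≤ ((Q * Q + 1) * k) * n := by
    rintro k Q hk c ⟨s, step, out, hs, hc⟩ M N n hn
    have hc' : c = fun n => out (s n) := funext hc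
    rw [hc']
    exact Pool.Agent.V7H79.RD.blocks_automaton hk s step out hs n M N hn
  have main : ∀ b : ℕ, 2 ≤ b → ∀ ξ : ℝ, IsAlgebraic ℚ ξ → Irrational ξ →
      FarFromAutomata b ξ ∧ FarFromLinearComplexity b ξ ∧ ProductInequality b ξ := by
    intro b hb ξ hξ hirr
    refine ⟨⟨?_, ?_⟩, ⟨?_, ?_⟩, ?_⟩
    · intro k Q K κ hk hκ
      obtain ⟨η, hη, N₀, h0⟩ := Pool.Agent.V7H79.RD.intervals b hb ξ hξ hirr
        ((Q * Q + 1) * k) K κ hκ
      exact ⟨η, hη, N₀, fun N hN w c hw hc => h0 N hN w hw c fun n hn => hpoor k Q hk c hc _ _ n hn⟩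
    · intro k Q K hk
      obtain ⟨N₀, h0⟩ := Pool.Agent.V7H79.RD.logarithm b hb ξ hξ hirr ((Q * Q + 1) * k) K
      exact ⟨N₀, fun N hN w c hw hc => h0 N hN w hw c fun n hn => hpoor k Q hk c hc _ _ n hn⟩
    · intro C K κ hκ
      obtain ⟨η, hη, N₀, h0⟩ := Pool.Agent.V7H79.RD.intervals b hb ξ hξ hirr C K κ hκ
      exact ⟨η, hη, N₀, fun N hN w c hw hc => h0 N hN w hw c hc⟩
    · intro C K
      obtain ⟨N₀, h0⟩ := Pool.Agent.V7H79.RD.logarithm b hb ξ hξ hirr C K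
      exact ⟨N₀, fun N hN w c hw hc => h0 N hN w hw c hc⟩
    · intro ε hε
      obtain ⟨η, hη, N₀, h0⟩ := Pool.Agent.V7H79.RD.window b hb ξ hξ hirr ε hε
      refine ⟨η, hη, N₀, fun N hN w hw n hn M hM c => ?_⟩
      have h1 : N < M + (wrong w c M N + 1) * (blocks c n M N + n) := h0 N hN w hw n hn M c
      omega
  refine ⟨?_, fun b hb ξ => ⟨digits_expansion b hb ξ, main b hb ξ⟩⟩
  have halg : IsAlgebraic ℚ (Real.sqrt 2) := by
    refine ⟨Polynomial.X ^ 2 - Polynomial.C 2, ?_, ?_⟩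
    · exact (Polynomial.monic_X_pow_sub_C (2 : ℚ) two_ne_zero).ne_zero
    · simp
  intro k Q K hk
  obtain ⟨N₀, h0⟩ := (main 2 le_rfl _ halg irrational_sqrt_two).1.2 k Q (K + 1) hk
  refine ⟨max N₀ 2, fun N hN c hc => ?_⟩
  have hN2 : 2 ≤ N := (le_max_right _ _).trans hN
  have hN2R : (2 : ℝ) ≤ N := by exact_mod_cast hN2
  have h1 := h0 N ((le_max_left _ _).trans hN) (digits 2 (Real.sqrt 2)) c
    (Pool.Agent.V7H79.RD.Expansion.mono (digits_expansion 2 le_rfl _) (by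
      push_cast
      calc (2 : ℝ) ≤ N := hN2R
        _ ≤ (N : ℝ) ^ (K + 1) := le_self_pow₀ (by linarith) (by omega))) hc
  refine lt_of_le_of_lt ?_ h1
  apply mul_le_mul_of_nonneg_right _ (Real.log_natCast_nonneg N)
  push_cast
  linarith

end Pool.Agent.V7H79.RD.DistanceToAutomata
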